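import Mathlib

set_option autoImplicit false

namespace Pool.Agent.Results.MP_31efb7_an.No

open Filter Topology Finset
open scoped ENNReal

/-- complete p-norm -/
def PB (p : ℝ) {Z : Type} [AddCommGroup Z] [Module ℝ Z] (ν : Z → ℝ) : Prop :=
  (∀ x, 0 ≤ ν x) ∧ (∀ x, x ≠ 0 → 0 < ν x) ∧ (∀ (a : ℝ) x, ν (a • x) = |a| * ν x) ∧
  (∀ x y, ν (x + y) ^ p ≤ ν x ^ p + ν y ^ p) ∧
  ∀ u : ℕ → Z, (∀ ε > 0, ∃ N, ∀ m ≥ N, ∀ n ≥ N, ν (u m - u n) ^ p < ε) →
    ∃ z, Tendsto (fun n => ν (u n - z) ^ p) atTop (𝓝 0)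

/-- `d ^ q` is a metric -/
def QM (q : ℝ) {M : Type} (d : M → M → ℝ) : Prop :=
  (∀ x y, 0 ≤ d x y) ∧ (∀ x y, d x y = 0 ↔ x = y) ∧ (∀ x y, d x y = d y x) ∧
    ∀ x y z, d x z ^ q ≤ d x y ^ q + d y z ^ q

/-- norm of a combination of point evaluations in the free p-space over `S` -/
noncomputable def nrm (p : ℝ) {M : Type} [Fintype M] (d : M → M → ℝ) (o : M) (S : Set M)
    (a : M → ℝ) : ℝ≥0∞ :=
  ⨆ (Y : Type) (_ : AddCommGroup Y) (_ : Module ℝ Y) (ν : Y → ℝ) (_ : PB p ν) (f : M → Y)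
    (_ : f o = 0 ∧ ∀ x ∈ S, ∀ y ∈ S, ν (f x - f y) ≤ d x y), ENNReal.ofReal (ν (∑ x, a x • f x))

section
variable {p : ℝ} (p0 : 0 < p) (p1 : p ≤ 1)
include p0

theorem sm {Z T : Type} [AddCommGroup Z] [Module ℝ Z] {ν : Z → ℝ} (h : PB p ν) (s : Finset T)
    (v : T → Z) : ν (∑ i ∈ s, v i) ^ p ≤ ∑ i ∈ s, ν (v i) ^ p :=
  le_sum_of_subadditive (fun x => ν x ^ p) (by
    have := h.2.2.1 0 0
    simp only [zero_smul, abs_zero, zero_mul] at this
    simp [this, p0.ne']) h.2.2.2.1 s v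

include p1

theorem sub (a b : ℝ) : (a + b)⁺ ^ p ≤ a⁺ ^ p + b⁺ ^ p :=
  (Real.rpow_le_rpow (posPart_nonneg _) (sup_le (add_le_add (le_posPart a) (le_posPart b))
    (add_nonneg (posPart_nonneg a) (posPart_nonneg b))) p0.le).trans
    (Real.rpow_add_le_add_rpow (posPart_nonneg _) (posPart_nonneg _) p0.le p1)

theorem mk {V : Type} [NormedAddCommGroup V] [NormedSpace ℝ V] [CompleteSpace V] (g : V → ℝ)
    (h1 : ∀ v w, g (v + w) ≤ g v + g w) (h2 : ∀ a : ℝ, 0 < a → ∀ v, g (a • v) = a ^ p * g v)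
    (h3 : ∀ ε > 0, ∀ᶠ v in 𝓝 0, g v < ε) :
    PB p fun v => max (‖v‖ ^ p) (max (g v) (g (-v))) ^ p⁻¹ := by
  have g0 : ∀ v, 0 ≤ max (‖v‖ ^ p) (max (g v) (g (-v))) := fun v => le_max_of_le_left (by positivity)
  have e : ∀ v, (max (‖v‖ ^ p) (max (g v) (g (-v))) ^ p⁻¹) ^ p = _ :=
    fun v => Real.rpow_inv_rpow (g0 v) p0.ne'
  refine ⟨fun v => Real.rpow_nonneg (g0 _) _, fun v h => Real.rpow_pos_of_pos
    (lt_max_of_lt_left (Real.rpow_pos_of_pos (norm_pos_iff.2 h) _)) _,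
    fun a v => ?_, fun v w => ?_, fun u hu => ?_⟩
  · have : max (‖a • v‖ ^ p) (max (g (a • v)) (g (-(a • v)))) =
        |a| ^ p * max (‖v‖ ^ p) (max (g v) (g (-v))) := by
      rw [mul_max_of_nonneg _ _ (by positivity), mul_max_of_nonneg _ _ (by positivity), norm_smul,
        Real.mul_rpow (by positivity) (by positivity), Real.norm_eq_abs]
      rcases lt_trichotomy a 0 with h | rfl | h
      · rw [abs_of_neg h, ← h2 _ (neg_pos.2 h), ← h2 _ (neg_pos.2 h), max_comm (g _)]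
        simp
      · have := h2 2 two_pos 0
        have := Real.one_lt_rpow one_lt_two p0
        have : g 0 = 0 := by rw [smul_zero] at *; nlinarith
        simp [p0.ne', this]
      · rw [abs_of_pos h, ← h2 _ h, ← h2 _ h, smul_neg]
    beta_reduce
    rw [this, Real.mul_rpow (by positivity) (g0 _), Real.rpow_rpow_inv (abs_nonneg _) p0.ne']
  · simp only [e]
    refine max_le (((Real.rpow_le_rpow (norm_nonneg _) (norm_add_le v w) p0.le).trans
      (Real.rpow_add_le_add_rpow (norm_nonneg _) (norm_nonneg _) p0.le p1)).trans (by gcongr <;> simp))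
      (max_le ((h1 _ _).trans (by gcongr <;> simp)) ?_)
    rw [neg_add]
    exact (h1 _ _).trans (by gcongr <;> simp)
  · simp only [e] at hu ⊢
    obtain ⟨z, hz⟩ := cauchySeq_tendsto_of_complete (u := u) (Metric.cauchySeq_iff.2 fun ε h => by
      obtain ⟨N, hN⟩ := hu (ε ^ p) (by positivity)
      exact ⟨N, fun m a n b => (dist_eq_norm _ _).trans_lt (lt_of_not_ge fun c =>
        ((le_max_left _ _).trans_lt (hN m a n b)).not_ge (Real.rpow_le_rpow h.le c p0.le))⟩)
    have a := tendsto_sub_nhds_zero_iff.2 hz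
    refine ⟨z, tendsto_order.2 ⟨fun ε h => .of_forall fun n => h.trans_le (g0 _), fun ε h => ?_⟩⟩
    filter_upwards [a.eventually (h3 ε h), (neg_zero (G := V) ▸ a.neg).eventually (h3 ε h),
      (a.norm.rpow_const (p := p) (.inr p0.le)).eventually (gt_mem_nhds (by simpa [p0.ne'] using h))]
      with n b c d using max_lt d (max_lt b c)

theorem psi (κ θ b s : ℝ) (t0 : 0 ≤ θ) (b1 : 1 ≤ b) (h1 : θ ≤ κ - 1) (h2 : θ * b ≤ κ * b ^ p - 1) :
    1 + θ * min s⁺ b ≤ (1 - s)⁺ ^ p + κ * s⁺ ^ p := by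
  have a := sub p0 p1 (1 - s) s
  rw [sub_add_cancel, posPart_eq_self.2 zero_le_one, Real.one_rpow] at a
  have s0 := posPart_nonneg s
  have s1 : 0 ≤ (1 - s)⁺ ^ p := by positivity
  generalize s⁺ = t at *
  rcases le_total t 1 with h | h
  · have := Real.self_le_rpow_of_le_one s0 h p1
    rw [min_eq_left (h.trans b1)]
    nlinarith
  rcases le_total b t with c | c
  · have := Real.rpow_le_rpow (by linarith) c p0.le
    rw [min_eq_right c]
    nlinarith
  rw [min_eq_left c]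
  obtain ⟨x, y, x0, y0, xy, rfl⟩ := (Convex.mem_Icc b1).1 ⟨h, c⟩
  have := (Real.concaveOn_rpow p0.le p1).2 (x := 1) (y := b) (by simp) (by simp; linarith) x0 y0 xy
  simp only [smul_eq_mul, Real.one_rpow] at this
  have := mul_le_mul_of_nonneg_left this (show 0 ≤ κ by linarith)
  nlinarith [mul_le_mul_of_nonneg_left h1 x0, mul_le_mul_of_nonneg_left h2 y0]

end

variable {I J : Type} [Fintype I] [Fintype J]

/-- one-sided cost -/
noncomputable def G (p κ : ℝ) (v : I × J → ℝ) : ℝ :=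
  ⨅ u : {u : I × J → ℝ // ∀ i, ∑ j, u (i, j) = 0}, ∑ x, ((u.1 x)⁺ ^ p + κ * (v x - u.1 x)⁺ ^ p)

theorem G_le {p κ : ℝ} (k0 : 0 ≤ κ) (v u : I × J → ℝ) (h : ∀ i, ∑ j, u (i, j) = 0) :
    G p κ v ≤ ∑ x, ((u x)⁺ ^ p + κ * (v x - u x)⁺ ^ p) :=
  ciInf_le ⟨0, by rintro _ ⟨c, rfl⟩; positivity⟩ (⟨u, h⟩ : {u : I × J → ℝ // ∀ i, ∑ j, u (i, j) = 0})

instance : Nonempty {u : I × J → ℝ // ∀ i, ∑ j, u (i, j) = 0} := ⟨⟨0, by simp⟩⟩

theorem pb {p κ : ℝ} (p0 : 0 < p) (p1 : p ≤ 1) (k0 : 0 ≤ κ) :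
    PB p fun v : I × J → ℝ => max (‖v‖ ^ p) (max (κ * G p κ v) (κ * G p κ (-v))) ^ p⁻¹ := by
  refine mk p0 p1 (fun v => κ * G p κ v) (fun v w => ?_) (fun a a0 v => ?_) fun ε h => ?_
  · rw [← mul_add]
    refine mul_le_mul_of_nonneg_left (le_ciInf_add_ciInf fun c d => (G_le k0 _ (c.1 + d.1)
      fun i => by simp [sum_add_distrib, c.2, d.2]).trans ?_) k0
    rw [← sum_add_distrib]
    refine sum_le_sum fun x _ => ?_
    have := sub p0 p1 (c.1 x) (d.1 x)
    have := mul_le_mul_of_nonneg_left (sub p0 p1 (v x - c.1 x) (w x - d.1 x)) k0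
    rw [← add_sub_add_comm] at this
    simp only [Pi.add_apply]
    linarith
  · have : Function.Surjective fun u : {u : I × J → ℝ // ∀ i, ∑ j, u (i, j) = 0} =>
        (⟨a • u.1, fun i => by simp [← mul_sum, u.2]⟩ : {u : I × J → ℝ // ∀ i, ∑ j, u (i, j) = 0}) :=
      fun u => ⟨⟨a⁻¹ • u.1, fun i => by simp [← mul_sum, u.2]⟩, by simp [a0.ne']⟩
    rw [mul_left_comm, G, G, Real.mul_iInf_of_nonneg (r := a ^ p) (by positivity), ← this.iInf_comp]
    congr! 3 with c
    have : ∀ t : ℝ, (a * t)⁺ ^ p = a ^ p * t⁺ ^ p := fun t => by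
      rw [← Real.mul_rpow a0.le (posPart_nonneg _), posPart_def, posPart_def,
        mul_max_of_nonneg _ _ a0.le, mul_zero]
    simp only [mul_sum, Pi.smul_apply, smul_eq_mul, ← mul_sub, this]
    exact sum_congr rfl fun _ _ => by ring
  · have : Continuous fun v : I × J → ℝ => κ * ∑ x, ((0 : ℝ)⁺ ^ p + κ * (v x - 0)⁺ ^ p) :=
      continuous_const.mul (continuous_finsetSum _ fun x _ => continuous_const.add
        (continuous_const.mul (Continuous.rpow_const (by fun_prop) fun _ => .inr p0.le)))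
    exact (this.continuousAt.eventually (gt_mem_nhds (by simpa [p0.ne'] using h))).mono fun v hv =>
      (mul_le_mul_of_nonneg_left (G_le k0 v 0 (by simp)) k0).trans_lt hv

theorem le_G {p κ θ : ℝ} (p0 : 0 < p) (p1 : p ≤ 1) (t0 : 0 ≤ θ) (b : ℝ) (hb : Fintype.card J = b)
    (b1 : 1 ≤ b) (h1 : θ ≤ κ - 1) (h2 : θ * b ≤ κ * b ^ p - 1) :
    Fintype.card I * (b + θ * b) ≤ G p κ (1 : I × J → ℝ) := le_ciInf fun u => by
  rw [Fintype.sum_prod_type, ← nsmul_eq_mul]
  refine card_nsmul_le_sum _ _ _ fun i _ => le_trans ?_ (sum_le_sum fun j _ => by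
    simpa using psi p0 p1 κ θ b (1 - u.1 (i, j)) t0 b1 h1 h2)
  simp only [sum_add_distrib, sum_const, card_univ, nsmul_eq_mul, hb, mul_one, ← mul_sum]
  gcongr
  by_cases h : ∀ j, (1 - u.1 (i, j))⁺ ≤ b
  · refine le_trans ?_ (sum_le_sum fun j _ => le_min (le_posPart _) ((le_posPart _).trans (h j)))
    simp [u.2, hb]
  · push Not at h
    obtain ⟨j, h⟩ := h
    exact (le_min h.le le_rfl).trans (single_le_sum (f := fun j => min (1 - u.1 (i, j))⁺ b)
      (fun j _ => le_min (posPart_nonneg _) (by linarith)) (mem_univ j))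

open Classical in
/-- star metric -/
noncomputable def σ {T : Type} (a b : Option T) : ℝ :=
  if a = b then 0 else (if a = none then 0 else 1) + if b = none then 0 else 1

theorem σ1 {T : Type} (a b c : Option T) : 0 ≤ σ a b ∧ (σ a b = 0 → a = b) ∧ σ a b = σ b a ∧
    σ a c ≤ σ a b + σ b c := by
  unfold σ
  grind

/-- tree metric -/
noncomputable def ρ (u v : Option (I × Option J)) : ℝ := σ (u.map Prod.fst) (v.map Prod.fst) +
  σ (u.bind fun x => x.2.map (x.1, ·)) (v.bind fun x => x.2.map (x.1, ·))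

omit [Fintype I] [Fintype J] in
theorem qm {q : ℝ} (q0 : 0 < q) : QM q fun u v : Option (I × Option J) => ρ u v ^ q⁻¹ := by
  have r0 : ∀ u v : Option (I × Option J), 0 ≤ ρ u v := fun u v =>
    add_nonneg (σ1 _ _ none).1 (σ1 _ _ none).1
  refine ⟨fun u v => Real.rpow_nonneg (r0 u v) _, fun u v => ?_, fun u v => ?_, fun u v w => ?_⟩
  · rw [Real.rpow_eq_zero (r0 u v) (inv_pos.2 q0).ne']
    refine ⟨fun h => ?_, by rintro rfl; simp [ρ, σ]⟩
    obtain ⟨a, b⟩ := (add_eq_zero_iff_of_nonneg (σ1 _ _ none).1 (σ1 _ _ none).1).1 h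
    have a := (σ1 _ _ none).2.1 a
    have b := (σ1 _ _ none).2.1 b
    obtain _ | ⟨i, _ | j⟩ := u <;> obtain _ | ⟨k, _ | l⟩ := v <;> simp_all
  · simp only [ρ]
    rw [(σ1 _ _ none).2.2.1, (σ1 (u.bind _) _ none).2.2.1]
  · simp only [Real.rpow_inv_rpow (r0 _ _) q0.ne']
    unfold ρ
    linarith [(σ1 (u.map Prod.fst) (v.map Prod.fst) (w.map Prod.fst)).2.2.2,
      (σ1 (u.bind fun x => x.2.map (x.1, ·)) (v.bind fun x => x.2.map (x.1, ·))
        (w.bind fun x => x.2.map (x.1, ·))).2.2.2]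

open Classical in
/-- the test map -/
noncomputable def e (u : Option (Option I × Option J)) (x : I × J) : ℝ :=
  if u = some (some x.1, some x.2) then 1 else 0

omit [Fintype I] [Fintype J] in
theorem e2 [DecidableEq (I × J)] (i : I) (j : J) : e (some (some i, some j)) = Pi.single (i, j) 1 := by
  ext ⟨k, l⟩
  simp only [e, Pi.single_apply]
  grind

theorem e0 (u : Option (Option I × Option J)) : 0 ≤ ∑ x, e u x ∧ ∑ x, e u x ≤ 1 := by
  classical
  obtain _ | ⟨_ | i, _ | j⟩ := u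
  on_goal 5 => simp [e2]
  all_goals simp [e]

theorem e1 {p : ℝ} (p0 : 0 < p) (u v : Option (Option I × Option J)) :
    ‖e u - e v‖ ^ p ≤ 1 ∧ ∑ x, ((e u - e v) x)⁺ ^ p ≤ 1 := by
  refine ⟨Real.rpow_le_one (norm_nonneg _) ((pi_norm_le_iff_of_nonneg zero_le_one).2 fun x => ?_) p0.le,
    (sum_le_sum (g := e u) fun x _ => ?_).trans (e0 u).2⟩
  · simp only [e, Pi.sub_apply]
    split_ifs <;> simp
  · simp only [e, Pi.sub_apply]
    split_ifs <;> simp [p0.ne']

theorem big {p : ℝ} (p1 : p < 1) (K c : ℝ) (c0 : 0 < c) : ∀ᶠ n : ℕ in atTop, K * n ^ p < c * n := by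
  have := ((tendsto_rpow_neg_atTop (sub_pos.2 p1)).comp tendsto_natCast_atTop_atTop).const_mul K
  filter_upwards [this.eventually (gt_mem_nhds (by simpa using c0)), eventually_gt_atTop 0] with n h n0
  have n0 : (0 : ℝ) < n := by exact_mod_cast n0
  rwa [Function.comp, neg_sub, Real.rpow_sub_one n0.ne', ← mul_div_assoc, div_lt_iff₀ n0] at h

theorem result (p q : ℝ) (p0 : 0 < p) (pq : p ≤ q) (q1 : q ≤ 1) (p1 : p < 1) :
    ∃ (M : Type) (_ : Fintype M) (d : M → M → ℝ) (o : M) (N : Set M) (a : M → ℝ),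
      QM q d ∧ o ∈ N ∧ (∀ x ∉ N, a x = 0) ∧ 0 < nrm p d o Set.univ a ∧
      ENNReal.ofReal (2 ^ (1 / q)) * nrm p d o Set.univ a < nrm p d o N a := by
  have q0 := p0.trans_le pq
  obtain ⟨κ, hκ⟩ : ∃ κ : ℝ, κ = (2 ^ q⁻¹) ^ p := ⟨_, rfl⟩
  have t1 : (1 : ℝ) < 2 ^ q⁻¹ := Real.one_lt_rpow one_lt_two (inv_pos.2 q0)
  have k1 : 1 < κ := hκ ▸ Real.one_lt_rpow t1 p0
  have k2 : ((4 : ℝ) ^ q⁻¹) ^ p = κ * κ := by
    rw [hκ, ← Real.mul_rpow (by positivity) (by positivity), ← Real.mul_rpow] <;> norm_num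
  obtain ⟨b, b1, b2, b3⟩ := ((eventually_ge_atTop 1).and ((big p1 2 (κ - 1) (by linarith)).and
    ((((tendsto_rpow_atTop p0).comp tendsto_natCast_atTop_atTop).const_mul_atTop
      (sub_pos.2 k1)).eventually_ge_atTop 2))).exists
  obtain ⟨B, B1, B2⟩ := ((eventually_ge_atTop 1).and (big p1 (b ^ p * κ) 1 one_pos)).exists
  have b1 : (1 : ℝ) ≤ b := by exact_mod_cast b1
  have B1 : (1 : ℝ) ≤ B := by exact_mod_cast B1
  have b4 := Real.one_le_rpow b1 p0.le
  simp only [Function.comp] at b3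
  have P := pb (I := Fin B) (J := Fin b) p0 p1.le (zero_le_one.trans k1.le)
  have Q := qm (I := Option (Fin B)) (J := Fin b) q0
  let a : Option (Option (Fin B) × Option (Fin b)) → ℝ := fun u => ∑ x, e u x
  have ha : ∀ (Y : Type) [AddCommGroup Y] [Module ℝ Y] (f : _ → Y),
      ∑ u, a u • f u = ∑ x : Fin B × Fin b, f (some (some x.1, some x.2)) := fun Y _ _ f => by
    simp only [a, sum_smul]
    rw [sum_comm]
    simp [e]
  let j0 : Fin b := ⟨0, by exact_mod_cast b1⟩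
  refine ⟨_, inferInstance, _, some (none, some j0), {u | ∃ i j, u = some (i, some j)}, a, Q,
    ⟨_, _, rfl⟩, fun u hu => sum_eq_zero fun x _ => if_neg fun h => hu ⟨_, _, h⟩, ?_, ?_⟩
  · have w := P.2.1 1 (by
      have : Nonempty (Fin B × Fin b) := ⟨⟨0, by exact_mod_cast B1⟩, j0⟩
      exact one_ne_zero)
    generalize (fun v : Fin B × Fin b → ℝ => _) = ν at P w
    refine lt_of_lt_of_le ?_ (le_iSup₂_of_le _ inferInstance
      (le_iSup₂_of_le inferInstance _ (le_iSup₂_of_le P (fun u => (a u / ν 1) • 1)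
        (le_iSup_of_le ⟨by simp [a, e], fun x _ y _ => ?_⟩ le_rfl))))
    · rw [ha, ← sum_smul, P.2.2.1]
      simp [a, e2, w, w.ne', show B ≠ 0 by omega, show b ≠ 0 by omega]
      positivity
    rw [← sub_smul, P.2.2.1, ← sub_div, abs_div, abs_of_pos w, div_mul_cancel₀ _ w.ne']
    by_cases c : x = y
    · simpa [c] using Q.1 y y
    refine (abs_le.2 ⟨by linarith [(e0 x).1, (e0 y).2], by linarith [(e0 x).2, (e0 y).1]⟩).trans
      (Real.one_le_rpow ?_ (by positivity))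
    have := mt (Q.2.1 x y).1 c
    have s : ∀ {T : Type} (a b : Option T), σ a b = 0 ∨ 1 ≤ σ a b := fun a b => by
      unfold σ
      grind
    by_contra h
    refine this ?_
    have : ρ x y = 0 := by
      unfold ρ at h ⊢
      grind
    simp [this, q0.ne']
  have up : nrm p (fun u v => ρ u v ^ q⁻¹) (some (none, some j0)) Set.univ a ≤
      ENNReal.ofReal ((B * b + B * b ^ p + (B * b) ^ p * κ) ^ p⁻¹) := by
    simp only [nrm, iSup_le_iff]
    rintro Y _ _ ν h f ⟨f0, f1⟩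
    refine ENNReal.ofReal_le_ofReal ((Real.le_rpow_inv_iff_of_pos (h.1 _) (by positivity) p0).2 ?_)
    have f2 := fun x y => Real.rpow_le_rpow (h.1 _) (f1 x trivial y trivial) p0.le
    have : ∑ u, a u • f u = ∑ x : Fin B × Fin b, (f (some (some x.1, some x.2)) - f (some (some x.1, none)))
        + ∑ i : Fin B, (b : ℝ) • (f (some (some i, none)) - f none)
        + (B * b : ℝ) • (f none - f (some (none, some j0))) := by
      rw [ha, f0]
      simp [Fintype.sum_prod_type, smul_sub, mul_smul, Nat.cast_smul_eq_nsmul, smul_sum]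
    rw [this]
    refine (h.2.2.2.1 _ _).trans (add_le_add ((h.2.2.2.1 _ _).trans (add_le_add
      ((sm p0 h _ _).trans ((sum_le_card_nsmul _ _ 1 fun x _ => (f2 _ _).trans ?_).trans_eq (by simp)))
      ((sm p0 h _ _).trans ((sum_le_card_nsmul _ _ ((b : ℝ) ^ p) fun x _ => ?_).trans_eq (by simp))))) ?_)
    · simp [ρ, σ]
    · rw [h.2.2.1, Real.mul_rpow (abs_nonneg _) (h.1 _), Nat.abs_cast]
      exact mul_le_of_le_one_right (by positivity) ((f2 _ _).trans (by simp [ρ, σ]))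
    · rw [h.2.2.1, Real.mul_rpow (abs_nonneg _) (h.1 _), abs_of_nonneg (by positivity), hκ]
      exact mul_le_mul_of_nonneg_left ((f2 _ _).trans (by simp [ρ, σ, one_add_one_eq_two])) (by positivity)
  refine (mul_le_mul_right up _).trans_lt (lt_of_lt_of_le ?_ (le_iSup₂_of_le _ inferInstance
    (le_iSup₂_of_le inferInstance _ (le_iSup₂_of_le P e (le_iSup_of_le ⟨funext fun x => by simp [e], ?_⟩
      le_rfl)))))
  · have := le_G (I := Fin B) (J := Fin b) (κ := κ) (θ := (b ^ p + 1) / b) p0 p1.le (by positivity) b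
      (by simp) b1 (by rw [div_le_iff₀ (by positivity)]; linarith)
      (by rw [div_mul_cancel₀ _ (by positivity)]; linarith)
    rw [div_mul_cancel₀ _ (by positivity), Fintype.card_fin] at this
    rw [ha, show ∑ x : Fin B × Fin b, e (some (some x.1, some x.2)) = 1 by
      simp only [e2]; exact univ_sum_single _, ← ENNReal.ofReal_mul (by positivity), one_div,
      ← Real.rpow_rpow_inv (x := 2 ^ q⁻¹) (by positivity) p0.ne', ← hκ,
      ← Real.mul_rpow (by positivity) (by positivity)]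
    refine (ENNReal.ofReal_lt_ofReal_iff_of_nonneg (by positivity)).2 (Real.rpow_lt_rpow (by positivity)
      (lt_max_of_lt_right (lt_max_of_lt_left ?_)) (inv_pos.2 p0))
    rw [Real.mul_rpow (by positivity) (by positivity)]
    gcongr
    linarith
  · have g : ∀ i j k l, κ * G p κ (e (some (i, some j)) - e (some (k, some l)) : Fin B × Fin b → ℝ) ≤
        (ρ (some (i, some j)) (some (k, some l)) ^ q⁻¹) ^ p := fun i j k l => by
      have k0 := zero_le_one.trans k1.le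
      have := (e1 p0 (some (i, some j)) (some (k, some l))).2
      by_cases h : i = k
      · subst h
        have g1 := (G_le (p := p) k0 _ (e (some (i, some j)) - e (some (i, some l))) fun m => by
          by_cases c : i = some m <;> simp [e, c]).trans_eq
          (sum_congr rfl fun x _ => by rw [sub_self, posPart_zero, Real.zero_rpow p0.ne', mul_zero, add_zero])
        by_cases c : j = l
        · subst c
          simp [ρ, σ, q0.ne', p0.ne'] at g1 ⊢
          exact mul_nonpos_of_nonneg_of_nonpos k0 g1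
        · rw [show ρ (some (i, some j)) (some (i, some l)) = 2 by simp [ρ, σ, c, one_add_one_eq_two], ← hκ]
          nlinarith
      · have g1 := G_le (p := p) k0 (e (some (i, some j)) - e (some (k, some l))) 0 (by simp)
        simp only [Pi.zero_apply, posPart_zero, Real.zero_rpow p0.ne', zero_add, sub_zero,
          ← mul_sum] at g1
        rw [show ρ (some (i, some j)) (some (k, some l)) = 4 by simp [ρ, σ, h]; norm_num, k2]
        exact mul_le_mul_of_nonneg_left (g1.trans (mul_le_of_le_one_right k0 this)) k0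
    rintro _ ⟨i, j, rfl⟩ _ ⟨k, l, rfl⟩
    refine (Real.rpow_inv_le_iff_of_pos (le_max_of_le_left (by positivity)) (Q.1 _ _) p0).2
      (max_le ?_ (max_le (g ..) (by rw [neg_sub, Q.2.2.1]; exact g ..)))
    by_cases c : (i, j) = (k, l)
    · cases c
      simp [ρ, σ, q0.ne', p0.ne']
    · refine (e1 p0 _ _).1.trans (Real.one_le_rpow (Real.one_le_rpow ?_ (by positivity)) p0.le)
      have := (σ1 (some i) (some k) none).1
      simp [ρ, σ, -Prod.mk.injEq, c] at this ⊢
      linarith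

end Pool.Agent.Results.MP_31efb7_an.No
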